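import Mathlib
import Pool.Agent.V11112.TreeFun

namespace Pool.Agent.Results.MP_550623_an.NotHypercyclic

open TopologicalSpace Pool.Agent.V11112

/-- `S` is hypercyclic: some vector has a dense orbit. -/
def Hypercyclic {𝕜 X : Type} [RCLike 𝕜] [NormedAddCommGroup X] [NormedSpace 𝕜 X]
    (S : X →L[𝕜] X) : Prop :=
  ∃ x : X, Dense (Set.range fun n : ℕ => (S ^ n) x)

/-- `S` is topologically mixing. -/
def Mixing {𝕜 X : Type} [RCLike 𝕜] [NormedAddCommGroup X] [NormedSpace 𝕜 X]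
    (S : X →L[𝕜] X) : Prop :=
  ∀ U V : Set X, IsOpen U → IsOpen V → U.Nonempty → V.Nonempty →
    ∃ N : ℕ, ∀ n : ℕ, N ≤ n → (((S ^ n) '' U) ∩ V).Nonempty

/-- Over each of the two scalar fields there is a non-zero separable Banach space with a bounded
operator `T` of dense range and dense generalized kernel such that `I + T` is neither
hypercyclic nor mixing. -/
theorem result : ∀ (𝕜 : Type) [RCLike 𝕜],
    ∃ (X : Type) (_ : NormedAddCommGroup X) (_ : NormedSpace 𝕜 X) (_ : CompleteSpace X)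
      (_ : SeparableSpace X) (_ : Nontrivial X) (T : X →L[𝕜] X),
      Dense (Set.range T) ∧
      Dense (⋃ n : {n : ℕ // 1 ≤ n}, {x : X | (T ^ (n : ℕ)) x = 0}) ∧
      ¬ Hypercyclic (1 + T) ∧ ¬ Mixing (1 + T) := by
  intro 𝕜 _
  have hsep : SeparableSpace (L1.Ell 𝕜 TreeOp.J) := L1.separable
  have hx0 : TreeOp.ee 𝕜 0 0 ≠ 0 := by
    intro h
    have := TreeFun.norm_x0 𝕜
    rw [h, norm_zero] at this
    exact zero_ne_one this
  have hnt : Nontrivial (L1.Ell 𝕜 TreeOp.J) := ⟨⟨_, _, hx0⟩⟩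
  refine ⟨L1.Ell 𝕜 TreeOp.J, inferInstance, inferInstance, inferInstance, hsep, hnt,
    TreeOp.TT 𝕜, TreeOp.dense_range 𝕜, ?_, ?_, ?_⟩
  · have h := TreeOp.dense_genKer 𝕜
    convert h using 1
    ext x
    simp only [Set.mem_iUnion, Set.mem_ofPred_eq, Subtype.exists]
    constructor
    · rintro ⟨n, hn, h⟩; exact ⟨n, hn, h⟩
    · rintro ⟨n, hn, h⟩; exact ⟨n, hn, h⟩
  · rintro ⟨x, hx⟩
    obtain ⟨_, h1, ⟨m, rfl⟩⟩ := hx.inter_open_nonempty (Metric.ball 0 (1 / 2))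
      Metric.isOpen_ball ⟨0, Metric.mem_ball_self (by norm_num)⟩
    have h1' : ‖((1 + TreeOp.TT 𝕜) ^ m) x‖ < 1 / 2 := by
      simpa using h1
    have hne : ∀ z : L1.Ell 𝕜 TreeOp.J, (nhdsWithin z {z}ᶜ).NeBot := fun z =>
      Module.punctured_nhds_neBot 𝕜 (L1.Ell 𝕜 TreeOp.J) z
    have hfin : ((fun i : ℕ => ((1 + TreeOp.TT 𝕜) ^ i) x) '' (Finset.range m : Set ℕ)).Finite :=
      (Finset.range m).finite_toSet.image _
    have hd := hx.diff_finite hfin
    obtain ⟨_, h2, ⟨⟨l, rfl⟩, h3⟩⟩ := hd.inter_open_nonempty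
      (Metric.ball (TreeOp.ee 𝕜 0 0) (1 / 2))
      Metric.isOpen_ball ⟨_, Metric.mem_ball_self (by norm_num)⟩
    have hl : m ≤ l := by
      by_contra hlt
      push Not at hlt
      exact h3 ⟨l, by simpa using hlt, rfl⟩
    obtain ⟨d, rfl⟩ := Nat.exists_eq_add_of_le hl
    have h4 := TreeFun.key 𝕜 d (((1 + TreeOp.TT 𝕜) ^ m) x) h1'
    simp only [Metric.mem_ball, dist_eq_norm] at h2
    rw [add_comm m d, pow_add, ContinuousLinearMap.mul_apply] at h2
    linarith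
  · intro hm
    obtain ⟨N, hN⟩ := hm (Metric.ball 0 (1 / 2)) (Metric.ball (TreeOp.ee 𝕜 0 0) (1 / 2))
      Metric.isOpen_ball Metric.isOpen_ball ⟨0, Metric.mem_ball_self (by norm_num)⟩
      ⟨_, Metric.mem_ball_self (by norm_num)⟩
    obtain ⟨_, ⟨y, hy, rfl⟩, h2⟩ := hN N le_rfl
    have hy' : ‖y‖ < 1 / 2 := by simpa using hy
    have h4 := TreeFun.key 𝕜 N y hy'
    simp only [Metric.mem_ball, dist_eq_norm] at h2
    linarith

end Pool.Agent.Results.MP_550623_an.NotHypercyclic
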